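import Mathlib
import Pool.Agent.H25.QSum

namespace Pool.Agent.Results.MP_cbe697_nt.Multi

open Finset

/-- The sum of the `r`-th powers of the multinomial coefficients over all `m`-tuples with sum `n`. -/
def M (m n r : ℕ) : ℤ :=
  ∑ k ∈ piAntidiag (univ : Finset (Fin m)) n, (Nat.multinomial univ k : ℤ) ^ r

def mu (r : ℕ) : ℕ → ℕ → ℤ
  | 0, n => if n = 0 then 1 else 0
  | m + 1, n => ∑ p ∈ antidiagonal n, (n.choose p.1 : ℤ) ^ r * mu r m p.2

lemma split {ι : Type} [DecidableEq ι] {s : Finset ι} {i : ι} (hi : i ∉ s) (n r : ℕ) (g : ℕ → ℤ) :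
    ∑ k ∈ piAntidiag (cons i s hi) n, g (k i) * (Nat.multinomial (cons i s hi) k : ℤ) ^ r =
    ∑ p ∈ antidiagonal n, g p.1 * (n.choose p.1 : ℤ) ^ r *
      ∑ k ∈ piAntidiag s p.2, (Nat.multinomial s k : ℤ) ^ r := by
  rw [piAntidiag_cons, sum_disjiUnion]
  refine sum_congr rfl fun p hp => ?_
  rw [sum_map, mul_sum]
  refine sum_congr rfl fun k hk => ?_
  obtain ⟨h1, h2⟩ := mem_piAntidiag.1 hk
  have h3 : k i = 0 := by
    by_contra h
    exact hi (h2 i h)
  have h4 : ∀ t ∈ s, (addRightEmbedding (fun t => if t = i then p.1 else 0) k) t = k t := by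
    intro t ht
    simp [show t ≠ i from fun h => hi (h ▸ ht)]
  rw [Nat.multinomial_cons, Nat.multinomial_congr h4, sum_congr rfl h4, h1]
  simp [h3, mem_antidiagonal.1 hp, mul_pow, mul_assoc]

lemma eq_mu {ι : Type} [DecidableEq ι] (r : ℕ) (s : Finset ι) :
    ∀ n, ∑ k ∈ piAntidiag s n, (Nat.multinomial s k : ℤ) ^ r = mu r s.card n := by
  induction s using cons_induction with
  | empty => intro n; cases n <;> simp [mu]
  | cons i s hi ih =>
    intro n
    have := split hi n r fun _ => 1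
    simp only [one_mul, ih] at this
    rw [this, card_cons, mu]

lemma row (m n r : ℕ) : ((m + 1 + 1) * n + (m + 1)) * M (m + 1) n r =
    (m + 1) * ∑ j ∈ range (n + 1), (n + j + 1) * (n.choose j : ℤ) ^ r * mu r m (n - j) := by
  have h : ∀ i : Fin (m + 1), ∑ k ∈ piAntidiag (univ : Finset (Fin (m + 1))) n,
      ((n : ℤ) + k i + 1) * (Nat.multinomial univ k : ℤ) ^ r =
      ∑ j ∈ range (n + 1), (n + j + 1) * (n.choose j : ℤ) ^ r * mu r m (n - j) := by
    intro i
    have := split (notMem_erase i univ) n r fun j => (n : ℤ) + j + 1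
    rw [cons_eq_insert, insert_erase (mem_univ i)] at this
    simp only [this, eq_mu, Nat.sum_antidiagonal_eq_sum_range_succ_mk]
    simp
  have := sum_congr rfl fun i (_ : i ∈ univ) => h i
  rw [sum_comm, sum_const, card_univ, Fintype.card_fin, nsmul_eq_mul] at this
  rw [M, mul_sum]
  push_cast at this
  rw [← this]
  refine sum_congr rfl fun k hk => ?_
  rw [← sum_mul, sum_add_distrib, sum_add_distrib, ← Nat.cast_sum, ← Nat.cast_sum _ k,
    (mem_piAntidiag.1 hk).1]
  simp
  left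
  ring

theorem result (m n r : ℕ) (hm : 1 ≤ m) (hr : 1 ≤ r) :
    (m : ℤ) * n ∣ ∑ k ∈ range n, (-1) ^ (r * k) * ((m + 1) * k + m) * M m k r := by
  obtain ⟨m, rfl⟩ := Nat.exists_eq_add_of_le' hm
  push_cast
  simp only [mul_assoc, row, mul_left_comm _ ((m : ℤ) + 1), ← mul_sum]
  refine mul_dvd_mul_left _ ((H25.QSum.thmA n r fun b =>
    (b.negOnePow : ℤ) ^ r * mu r m b.toNat).trans (dvd_of_eq (sum_congr rfl fun k hk => ?_)))
  rw [H25.QSum.row n k r (mem_range.1 hk) (by omega)]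
  simp only [mul_assoc]

end Pool.Agent.Results.MP_cbe697_nt.Multi
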